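import Pool.Agent.W203.SP.Stm2
set_option autoImplicit false

/-! Project SP (owner helper203), part SP-SPH: integration over the open upper half sphere. -/

namespace Pool.Agent.W612.SP

open MeasureTheory Set Filter Metric
open scoped ENNReal NNReal
open Pool.Agent.W203.SP
open Pool.Agent.H153R4 (E)

variable {k : ℕ}

/-- the point with the last coordinate `t` -/
noncomputable def sn (y : E k) (t : ℝ) : E (k + 1) :=
  WithLp.toLp 2 (Fin.snoc (α := fun _ : Fin (k + 1) => ℝ) (fun j => y j) t)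

theorem sn_last (y : E k) (t : ℝ) : (sn y t) (Fin.last k) = t := by
  unfold sn
  show Fin.snoc (α := fun _ : Fin (k + 1) => ℝ) (fun j => y j) t (Fin.last k) = t
  rw [Fin.snoc_last]

theorem sn_cast (y : E k) (t : ℝ) (j : Fin k) : (sn y t) j.castSucc = y j := by
  unfold sn
  show Fin.snoc (α := fun _ : Fin (k + 1) => ℝ) (fun j => y j) t j.castSucc = y j
  rw [Fin.snoc_castSucc]

theorem sn_norm (y : E k) (t : ℝ) : ‖sn y t‖ ^ 2 = ‖y‖ ^ 2 + t ^ 2 := by
  rw [EuclideanSpace.norm_sq_eq, EuclideanSpace.norm_sq_eq, Fin.sum_univ_castSucc]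
  simp only [sn_last, sn_cast, Real.norm_eq_abs, sq_abs]

theorem up_sn (y : E k) : up y = sn y (Real.sqrt (1 - ‖y‖ ^ 2)) := rfl

theorem sn_smul (c : ℝ) (y : E k) (t : ℝ) : sn (c • y) (c * t) = c • sn y t := by
  ext j
  refine Fin.lastCases ?_ (fun j => ?_) j
  · rw [sn_last]
    show c * t = c * (sn y t) (Fin.last k)
    rw [sn_last]
  · rw [sn_cast]
    show c * y j = c * (sn y t) j.castSucc
    rw [sn_cast]

theorem sn_meas : Measurable fun p : E k × ℝ => sn p.1 p.2 := by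
  apply Measurable.comp (WithLp.measurable_toLp 2 _)
  rw [measurable_pi_iff]
  intro i
  refine Fin.lastCases ?_ (fun j => ?_) i
  · simp only [Fin.snoc_last]
    exact measurable_snd
  · simp only [Fin.snoc_castSucc]
    have : Measurable fun y : E k => y j := by fun_prop
    exact this.comp measurable_fst

/-- splitting off the last coordinate -/
theorem split (G : E (k + 1) → ℝ≥0∞) (hG : Measurable G) :
    ∫⁻ z, G z = ∫⁻ y : E k, ∫⁻ t : ℝ, G (sn y t) := by
  have h1 : ∫⁻ z : E (k + 1), G z = ∫⁻ w : Fin (k + 1) → ℝ, G (WithLp.toLp 2 w) :=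
    ((PiLp.volume_preserving_toLp (Fin (k + 1))).lintegral_comp hG).symm
  have hG1 : Measurable fun w : Fin (k + 1) → ℝ => G (WithLp.toLp 2 w) :=
    hG.comp (WithLp.measurable_toLp 2 _)
  have h2 := ((volume_preserving_piFinSuccAbove (fun _ : Fin (k + 1) => ℝ)
    (Fin.last k)).symm).lintegral_comp hG1
  rw [h1, ← h2]
  have hG2 : Measurable fun p : ℝ × (Fin k → ℝ) => G (WithLp.toLp 2
      ((MeasurableEquiv.piFinSuccAbove (fun _ : Fin (k + 1) => ℝ) (Fin.last k)).symm p)) :=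
    hG1.comp (MeasurableEquiv.measurable _)
  rw [Measure.volume_eq_prod, lintegral_prod_symm' _ hG2]
  have hG3 : Measurable fun v : Fin k → ℝ => ∫⁻ t : ℝ, G (sn (WithLp.toLp 2 v) t) := by
    have h3 : Measurable fun p : E k × ℝ => G (sn p.1 p.2) := hG.comp sn_meas
    exact (h3.lintegral_prod_right').comp (WithLp.measurable_toLp 2 _)
  have h4 : Measurable fun y : E k => ∫⁻ t : ℝ, G (sn y t) := by
    have h3 : Measurable fun p : E k × ℝ => G (sn p.1 p.2) := hG.comp sn_meas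
    exact h3.lintegral_prod_right'
  rw [← (PiLp.volume_preserving_toLp (Fin k)).lintegral_comp h4]
  refine lintegral_congr fun v => lintegral_congr fun t => ?_
  congr 1
  unfold sn
  congr 1
  show (Fin.insertNthEquiv (fun _ : Fin (k + 1) => ℝ) (Fin.last k)) (t, v) = _
  rw [Fin.insertNthEquiv_last]
  rfl

theorem cst (k : ℕ) : Measure.volumeIoiPow k (Iio (⟨1, mem_Ioi.2 one_pos⟩ : Ioi (0 : ℝ))) =
    ∫⁻ r in Ioo (0 : ℝ) 1, ENNReal.ofReal (r ^ k) := by
  rw [Measure.volumeIoiPow, withDensity_apply _ measurableSet_Iio,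
    setLIntegral_subtype measurableSet_Ioi _ fun a : ℝ ↦ .ofReal (a ^ k),
    image_subtype_val_Ioi_Iio]

/-- the cone over a part of the upper half sphere -/
theorem polar (F : E (k + 1) → ℝ≥0∞) (hF : Measurable F) :
    ∫⁻ z : E (k + 1), (if 0 < z (Fin.last k) ∧ ‖z‖ < 1 then F (‖z‖⁻¹ • z) else 0) =
      (∫⁻ x in {x : E (k + 1) | 0 < x (Fin.last k)}, F x ∂(sg (k + 1))) *
        ∫⁻ r in Ioo (0 : ℝ) 1, ENNReal.ofReal (r ^ k) := by
  obtain ⟨G, hGd⟩ : ∃ G : E (k + 1) → ℝ≥0∞, G = fun z =>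
    if 0 < z (Fin.last k) ∧ ‖z‖ < 1 then F (‖z‖⁻¹ • z) else 0 := ⟨_, rfl⟩
  have hlast : Measurable fun x : E (k + 1) => x (Fin.last k) := by fun_prop
  have hG : Measurable G := by
    rw [hGd]
    refine Measurable.ite ?_ (hF.comp (measurable_norm.inv.smul measurable_id)) measurable_const
    exact (measurableSet_lt measurable_const hlast).inter
      (measurableSet_lt measurable_norm measurable_const)
  have hdim : Module.finrank ℝ (E (k + 1)) = k + 1 := by simp
  have hmp := (volume : Measure (E (k + 1))).measurePreserving_homeomorphUnitSphereProd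
  rw [hdim, Nat.add_sub_cancel] at hmp
  have hcomp : ∀ x : ({(0 : E (k + 1))}ᶜ : Set (E (k + 1))),
      (fun p : sphere (0 : E (k + 1)) 1 × Ioi (0 : ℝ) => G ((p.2 : ℝ) • (p.1 : E (k + 1))))
        (homeomorphUnitSphereProd (E (k + 1)) x) = G x := by
    intro x
    have h1 := (homeomorphUnitSphereProd (E (k + 1))).symm_apply_apply x
    have h2 := congrArg Subtype.val h1
    show G _ = G _
    congr 1
  have e1 : ∫⁻ ξ, G ξ = ∫⁻ x : ({(0 : E (k + 1))}ᶜ : Set (E (k + 1))), G x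
      ∂((volume : Measure (E (k + 1))).comap (↑)) := by
    rw [lintegral_subtype_comap (measurableSet_singleton _).compl G,
      restrict_compl_singleton]
  have e2 : ∫⁻ x : ({(0 : E (k + 1))}ᶜ : Set (E (k + 1))), G x
      ∂((volume : Measure (E (k + 1))).comap (↑)) =
      ∫⁻ p : sphere (0 : E (k + 1)) 1 × Ioi (0 : ℝ), G ((p.2 : ℝ) • (p.1 : E (k + 1)))
        ∂((volume : Measure (E (k + 1))).toSphere.prod (.volumeIoiPow k)) := by
    rw [← hmp.lintegral_comp_emb (Homeomorph.measurableEmbedding _)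
      (fun p : sphere (0 : E (k + 1)) 1 × Ioi (0 : ℝ) => G ((p.2 : ℝ) • (p.1 : E (k + 1))))]
    exact lintegral_congr fun x => (hcomp x).symm
  have e0 : ∫⁻ z : E (k + 1), (if 0 < z (Fin.last k) ∧ ‖z‖ < 1 then F (‖z‖⁻¹ • z) else 0) =
      ∫⁻ ξ, G ξ := by rw [hGd]
  rw [e0, e1, e2]
  have hS : MeasurableSet {x : E (k + 1) | 0 < x (Fin.last k)} :=
    measurableSet_lt measurable_const hlast
  have hFi : Measurable ({x : E (k + 1) | 0 < x (Fin.last k)}.indicator F) := hF.indicator hS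
  have e3 : ∀ p : sphere (0 : E (k + 1)) 1 × Ioi (0 : ℝ), G ((p.2 : ℝ) • (p.1 : E (k + 1))) =
      ({x : E (k + 1) | 0 < x (Fin.last k)}.indicator F p.1) *
        ((Iio (⟨1, mem_Ioi.2 one_pos⟩ : Ioi (0 : ℝ))).indicator (fun _ => (1 : ℝ≥0∞)) p.2) := by
    rintro ⟨⟨x, hx⟩, ⟨r, hr⟩⟩
    rw [mem_sphere_zero_iff_norm] at hx
    rw [mem_Ioi] at hr
    rw [hGd]
    have h1 : ‖r • x‖ = r := by rw [norm_smul, hx, mul_one, Real.norm_eq_abs, abs_of_pos hr]
    have h2 : (r • x) (Fin.last k) = r * x (Fin.last k) := rfl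
    simp only [h1, h2, mul_pos_iff_of_pos_left hr, smul_smul, inv_mul_cancel₀ hr.ne', one_smul]
    by_cases h3 : 0 < x (Fin.last k)
    · by_cases h4 : r < 1
      · have h5 : (⟨r, hr⟩ : Ioi (0 : ℝ)) ∈ Iio (⟨1, mem_Ioi.2 one_pos⟩ : Ioi (0 : ℝ)) := h4
        rw [if_pos ⟨h3, h4⟩, indicator_of_mem (show x ∈ {x : E (k + 1) | 0 < x (Fin.last k)}
          from h3), indicator_of_mem h5, mul_one]
      · have h5 : (⟨r, hr⟩ : Ioi (0 : ℝ)) ∉ Iio (⟨1, mem_Ioi.2 one_pos⟩ : Ioi (0 : ℝ)) := h4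
        rw [if_neg (fun h => h4 h.2), indicator_of_notMem h5, mul_zero]
    · rw [if_neg (fun h => h3 h.1), indicator_of_notMem (show x ∉ {x : E (k + 1) |
        0 < x (Fin.last k)} from h3), zero_mul]
  rw [lintegral_congr e3, lintegral_prod_mul (f := fun x : sphere (0 : E (k + 1)) 1 =>
    {x : E (k + 1) | 0 < x (Fin.last k)}.indicator F x)
    (hFi.comp measurable_subtype_coe).aemeasurable
    (measurable_const.indicator measurableSet_Iio).aemeasurable, lintegral_indicator_const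
    measurableSet_Iio, one_mul, cst]
  congr 1
  rw [← lintegral_indicator hS, sg, lintegral_map hFi measurable_subtype_coe]

theorem sub1 (a : ℝ) (ha : 0 ≤ a) (g : ℝ → ℝ≥0∞) :
    ∫⁻ t in Ioi (0 : ℝ), g t = ∫⁻ r in Ioi a, ENNReal.ofReal (r / Real.sqrt (r ^ 2 - a ^ 2)) *
      g (Real.sqrt (r ^ 2 - a ^ 2)) := by
  have hpos : ∀ r ∈ Ioi a, 0 < r ^ 2 - a ^ 2 := by
    intro r hr
    rw [mem_Ioi] at hr
    nlinarith
  have himg : (fun r => Real.sqrt (r ^ 2 - a ^ 2)) '' Ioi a = Ioi (0 : ℝ) := by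
    ext c
    constructor
    · rintro ⟨r, hr, rfl⟩
      exact Real.sqrt_pos.2 (hpos r hr)
    · intro hc
      rw [mem_Ioi] at hc
      refine ⟨Real.sqrt (c ^ 2 + a ^ 2), ?_, ?_⟩
      · rw [mem_Ioi]
        exact Real.lt_sqrt_of_sq_lt (by nlinarith)
      · show Real.sqrt (Real.sqrt (c ^ 2 + a ^ 2) ^ 2 - a ^ 2) = c
        rw [Real.sq_sqrt (by positivity), add_sub_cancel_right, Real.sqrt_sq hc.le]
  have hinj : InjOn (fun r => Real.sqrt (r ^ 2 - a ^ 2)) (Ioi a) := by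
    intro x hx y hy hxy
    have h1 := congrArg (fun t => t ^ 2) hxy
    simp only [Real.sq_sqrt (hpos x hx).le, Real.sq_sqrt (hpos y hy).le] at h1
    rw [mem_Ioi] at hx hy
    nlinarith
  have hd : ∀ r ∈ Ioi a, HasDerivWithinAt (fun r => Real.sqrt (r ^ 2 - a ^ 2))
      (r / Real.sqrt (r ^ 2 - a ^ 2)) (Ioi a) r := by
    intro r hr
    have h1 : HasDerivAt (fun r : ℝ => r ^ 2 - a ^ 2) (2 * r) r := by
      have := (hasDerivAt_pow 2 r).sub_const (a ^ 2)
      exact this.congr_deriv (by norm_num)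
    have h2 := h1.sqrt (hpos r hr).ne'
    refine (h2.congr_deriv ?_).hasDerivWithinAt
    have := (Real.sqrt_pos.2 (hpos r hr)).ne'
    field_simp
  rw [← himg, lintegral_image_eq_lintegral_abs_deriv_mul measurableSet_Ioi hd hinj g]
  apply setLIntegral_congr_fun measurableSet_Ioi
  intro r hr
  have h3 : 0 ≤ r / Real.sqrt (r ^ 2 - a ^ 2) :=
    div_nonneg (ha.trans (le_of_lt hr)) (Real.sqrt_nonneg _)
  simp only [abs_of_nonneg h3]

/-- the integrand in the coordinates `y`, `r` -/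
noncomputable def KK (F : E (k + 1) → ℝ≥0∞) (p : E k × ℝ) : ℝ≥0∞ :=
  if ‖p.1‖ < p.2 ∧ p.2 < 1 then ENNReal.ofReal (p.2 / Real.sqrt (p.2 ^ 2 - ‖p.1‖ ^ 2)) *
    F (p.2⁻¹ • sn p.1 (Real.sqrt (p.2 ^ 2 - ‖p.1‖ ^ 2))) else 0

theorem KK_meas (F : E (k + 1) → ℝ≥0∞) (hF : Measurable F) : Measurable (KK F) := by
  have h1 : Measurable fun p : E k × ℝ => Real.sqrt (p.2 ^ 2 - ‖p.1‖ ^ 2) := by fun_prop
  have h2 : Measurable fun p : E k × ℝ => sn p.1 (Real.sqrt (p.2 ^ 2 - ‖p.1‖ ^ 2)) :=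
    sn_meas.comp (measurable_fst.prodMk h1)
  refine Measurable.ite ?_ ?_ measurable_const
  · exact (measurableSet_lt (measurable_fst.norm) measurable_snd).inter
      (measurableSet_lt measurable_snd measurable_const)
  · exact (measurable_snd.div h1).ennreal_ofReal.mul (hF.comp (measurable_snd.inv.smul h2))

theorem fiber (F : E (k + 1) → ℝ≥0∞) (y : E k) :
    ∫⁻ t : ℝ, (if 0 < (sn y t) (Fin.last k) ∧ ‖sn y t‖ < 1 then F (‖sn y t‖⁻¹ • sn y t) else 0) =
      ∫⁻ r : ℝ, KK F (y, r) := by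
  have h1 : ∫⁻ t : ℝ, (if 0 < (sn y t) (Fin.last k) ∧ ‖sn y t‖ < 1 then
      F (‖sn y t‖⁻¹ • sn y t) else 0) = ∫⁻ t in Ioi (0 : ℝ), (if ‖sn y t‖ < 1 then
      F (‖sn y t‖⁻¹ • sn y t) else 0) := by
    rw [← lintegral_indicator measurableSet_Ioi]
    refine lintegral_congr fun t => ?_
    rw [sn_last]
    by_cases ht : 0 < t
    · rw [indicator_of_mem (show t ∈ Ioi (0 : ℝ) from ht)]
      simp only [ht, true_and]
    · rw [indicator_of_notMem (show t ∉ Ioi (0 : ℝ) from ht), if_neg fun h => ht h.1]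
  rw [h1, sub1 ‖y‖ (norm_nonneg y), ← lintegral_indicator measurableSet_Ioi]
  refine lintegral_congr fun r => ?_
  by_cases hr : ‖y‖ < r
  · rw [indicator_of_mem (show r ∈ Ioi ‖y‖ from hr)]
    have hr0 : 0 < r := (norm_nonneg y).trans_lt hr
    have hn : ‖sn y (Real.sqrt (r ^ 2 - ‖y‖ ^ 2))‖ = r := by
      have h2 := sn_norm y (Real.sqrt (r ^ 2 - ‖y‖ ^ 2))
      rw [Real.sq_sqrt (by nlinarith [norm_nonneg y]), add_sub_cancel] at h2
      exact (pow_left_inj₀ (norm_nonneg _) hr0.le two_ne_zero).1 h2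
    unfold KK
    simp only [hn, hr, true_and]
    split_ifs with h3
    · rfl
    · rw [mul_zero]
  · rw [indicator_of_notMem (show r ∉ Ioi ‖y‖ from hr)]
    unfold KK
    rw [if_neg fun h => hr h.1]

theorem scal {r : ℝ} (hr : 0 < r) (g : E k → ℝ≥0∞) (hg : Measurable g) :
    ∫⁻ y, g y = ENNReal.ofReal (r ^ k) * ∫⁻ x, g (r • x) := by
  have h1 : ∫⁻ x, g (r • x) = ∫⁻ y, g y ∂(Measure.map (fun x : E k => r • x) volume) :=
    (lintegral_map hg (measurable_const_smul r)).symm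
  rw [h1, Measure.map_addHaar_smul volume hr.ne', lintegral_smul_measure, smul_eq_mul, ← mul_assoc,
    ← ENNReal.ofReal_mul (by positivity)]
  have hdim : Module.finrank ℝ (E k) = k := by simp
  rw [hdim, abs_of_pos (by positivity), mul_inv_cancel₀ (by positivity), ENNReal.ofReal_one,
    one_mul]

theorem slice (F : E (k + 1) → ℝ≥0∞) (hF : Measurable F) {r : ℝ} (hr : 0 < r) (hr1 : r < 1) :
    ∫⁻ y, KK F (y, r) = ENNReal.ofReal (r ^ k) *
      ∫⁻ y in ball (0 : E k) 1, ENNReal.ofReal (1 / Real.sqrt (1 - ‖y‖ ^ 2)) * F (up y) := by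
  rw [scal hr (fun y => KK F (y, r)) ((KK_meas F hF).comp (measurable_id.prodMk measurable_const)),
    ← lintegral_indicator measurableSet_ball]
  congr 1
  refine lintegral_congr fun x => ?_
  have hn : ‖r • x‖ = r * ‖x‖ := by rw [norm_smul, Real.norm_eq_abs, abs_of_pos hr]
  have hsq : Real.sqrt (r ^ 2 - (r * ‖x‖) ^ 2) = r * Real.sqrt (1 - ‖x‖ ^ 2) := by
    rw [show r ^ 2 - (r * ‖x‖) ^ 2 = r ^ 2 * (1 - ‖x‖ ^ 2) by ring, Real.sqrt_mul (by positivity),
      Real.sqrt_sq hr.le]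
  unfold KK
  simp only [hn, hsq]
  by_cases hx : ‖x‖ < 1
  · have h3 : r / (r * Real.sqrt (1 - ‖x‖ ^ 2)) = 1 / Real.sqrt (1 - ‖x‖ ^ 2) := by
      have h4 := mul_div_mul_left 1 (Real.sqrt (1 - ‖x‖ ^ 2)) hr.ne'
      rwa [mul_one] at h4
    rw [indicator_of_mem (show x ∈ ball (0 : E k) 1 by rwa [mem_ball_zero_iff]), if_pos
      ⟨by nlinarith, hr1⟩, sn_smul, smul_smul, inv_mul_cancel₀ hr.ne', one_smul, ← up_sn, h3]
  · rw [indicator_of_notMem (show x ∉ ball (0 : E k) 1 by rwa [mem_ball_zero_iff]), if_neg]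
    rintro ⟨h, -⟩
    apply hx
    nlinarith

theorem t_SPH : S_SPH := by
  intro k F hF
  have hlast : Measurable fun x : E (k + 1) => x (Fin.last k) := by fun_prop
  have hG : Measurable fun z : E (k + 1) =>
      if 0 < z (Fin.last k) ∧ ‖z‖ < 1 then F (‖z‖⁻¹ • z) else 0 := by
    refine Measurable.ite ?_ (hF.comp (measurable_norm.inv.smul measurable_id)) measurable_const
    exact (measurableSet_lt measurable_const hlast).inter
      (measurableSet_lt measurable_norm measurable_const)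
  have h1 := polar F hF
  rw [split _ hG, lintegral_congr fun y => fiber F y,
    lintegral_lintegral_swap (f := fun (y : E k) (r : ℝ) => KK F (y, r))
      (KK_meas F hF).aemeasurable] at h1
  have h2 : ∫⁻ r : ℝ, ∫⁻ y : E k, KK F (y, r) =
      (∫⁻ y in ball (0 : E k) 1, ENNReal.ofReal (1 / Real.sqrt (1 - ‖y‖ ^ 2)) * F (up y)) *
        ∫⁻ r in Ioo (0 : ℝ) 1, ENNReal.ofReal (r ^ k) := by
    rw [mul_comm, ← lintegral_mul_const _ (by fun_prop), ← lintegral_indicator measurableSet_Ioo]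
    refine lintegral_congr fun r => ?_
    by_cases hr : r ∈ Ioo (0 : ℝ) 1
    · rw [indicator_of_mem hr, slice F hF hr.1 hr.2]
    · rw [indicator_of_notMem hr]
      rw [lintegral_congr (g := fun _ => 0), lintegral_zero]
      intro y
      unfold KK
      rw [if_neg]
      rintro ⟨h3, h4⟩
      exact hr ⟨(norm_nonneg y).trans_lt h3, h4⟩
  rw [h2, ← cst, Measure.volumeIoiPow_apply_Iio] at h1
  refine ((ENNReal.mul_left_inj ?_ ENNReal.ofReal_ne_top).1 h1).symm
  rw [Ne, ENNReal.ofReal_eq_zero, not_le]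
  positivity

end Pool.Agent.W612.SP
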